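import Pool.Agent.TH759.EV.NRows
import Pool.Agent.TH469.SX.TwentyOne

/-! Nearly equal multiplicities on the exact block, `q = 2`. -/

set_option autoImplicit false

namespace Pool.Agent.L7h43.NU

open Finset Pool.Agent.TH176.Nag Pool.Agent.TH603.Sur Pool.Agent.TH603.Cut
open Pool.Agent.TH864.SX (Slp)
open Pool.Agent.TH469.SX
open Pool.Agent.TH759.EV (Sur_rows_w)

/-- **emptiness or independence on the block, `M + 2` points of multiplicities `m` and `m + 1`** -/
theorem dichB0 {M m : ℕ} {K A : ℝ} (h : Slp M 2 K) {w : Fin (M + 2) → ℕ}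
    (hw : ∀ i, w i = m ∨ w i = m + 1) {i0 : Fin (M + 2)} (hw0 : w i0 = m) :
    Emp w (Fl 2 K A) ∨ Sur w (Fl 2 K A) := by
  have hK0 := h.K0
  have hKe : 2 * (K * (K - M)) = M := by have := h.eq; push_cast at this; exact this
  have hMK := h.hMK
  obtain ⟨D, hD⟩ : ∃ D : ℝ, D = 2 * K + 1 := ⟨_, rfl⟩
  have hD0 : 0 < D := by rw [hD]; linarith
  have hid : 2 * (K + 1) ^ 2 = (M + 2) * D := by rw [hD]; linear_combination hKe
  -- the multiplicities
  obtain ⟨n1, hn1⟩ : ∃ n1 : ℕ, n1 = ∑ i, (w i - m) := ⟨_, rfl⟩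
  have hS : ∀ k : ℕ, k ≤ m → ∑ i, (w i - k) = (M + 2) * (m - k) + n1 := by
    intro k hk
    rw [hn1]
    have : (M + 2) * (m - k) = ∑ _i : Fin (M + 2), (m - k) := by simp
    rw [this, ← sum_add_distrib]
    refine sum_congr rfl fun i _ => ?_
    rcases hw i with h | h <;> omega
  have hn2 : n1 ≤ M + 1 := by
    have h1 : n1 = ∑ i ∈ univ.erase i0, (w i - m) := by
      rw [hn1, ← Finset.add_sum_erase univ _ (mem_univ i0), hw0]
      simp
    rw [h1]
    have h2 : ∑ i ∈ univ.erase i0, (w i - m) ≤ ∑ i ∈ univ.erase i0, 1 :=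
      sum_le_sum fun i _ => by rcases hw i with h | h <;> omega
    have h3 : ∑ i ∈ univ.erase i0, 1 = M + 1 := by
      rw [sum_const, card_erase_of_mem (mem_univ _)]
      simp
    omega
  have hn2R : (n1 : ℝ) ≤ M + 1 := by exact_mod_cast hn2
  have hn0 : (0 : ℝ) ≤ n1 := Nat.cast_nonneg _
  obtain ⟨δ, hδ⟩ : ∃ δ : ℝ, δ = A - (K + 1) * m := ⟨_, rfl⟩
  have hx : ∀ k : ℕ, A - (K + 1) * k = (K + 1) * ((m : ℝ) - k) + δ := fun k => by rw [hδ]; ring
  rcases lt_or_ge ((K + 1) * (2 * δ - 1)) (n1 * D) with hc | hc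
  · left
    refine Emp_slabs 1 (-((1 : ℕ) : ℤ)) 1 0 (by ring) fun k B hB => ?_
    have hmem : ∀ c ∈ B, (1 ≤ c ∧ (c : ℝ) ≤ A - (K + 1) * k) ∨
        (c ≤ 0 ∧ (-c : ℝ) * D ≤ A - (K + 1) * k - (K + 1)) := by
      intro c hc
      obtain ⟨s, T, hT, h1, h2⟩ := hB c hc
      simp only [one_mul, zero_mul, neg_mul, sub_neg_eq_add, zero_add] at h1 h2
      have h3 := mem_row (p := 1) (q := 2) (by norm_num) hK0 hT h1 h2
      have e1 : ((2 : ℕ) : ℝ) * (K + ((1 : ℕ) : ℝ)) - 1 = D := by rw [hD]; push_cast; ring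
      rw [e1] at h3
      push_cast at h3
      exact h3
    rcases B.eq_empty_or_nonempty with he | hne
    · rw [he]; simp
    obtain ⟨x, hxk⟩ : ∃ x : ℝ, x = A - (K + 1) * k := ⟨_, rfl⟩
    rw [← hxk] at hmem
    have hx1 : 1 ≤ x := by
      obtain ⟨c, hc⟩ := hne
      rcases hmem c hc with ⟨h1, h2⟩ | ⟨h1, h2⟩
      · have : (1 : ℝ) ≤ c := by exact_mod_cast h1
        linarith
      · have h1R : (c : ℝ) ≤ 0 := by exact_mod_cast h1
        have : 0 ≤ (-c : ℝ) * D := mul_nonneg (by linarith) hD0.le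
        linarith
    have hx2 : x = (K + 1) * ((m : ℝ) - k) + δ := by rw [hxk]; exact hx k
    -- `k ≤ m`
    have hkm : k ≤ m := by
      by_contra hcon
      have h1 : (m : ℝ) + 1 ≤ k := by
        have : m + 1 ≤ k := by omega
        exact_mod_cast this
      have h2 : (K + 1) * ((m : ℝ) - k) ≤ (K + 1) * (-1) :=
        mul_le_mul_of_nonneg_left (by linarith) (by linarith)
      have h3 : K + 2 ≤ δ := by linarith
      have h4 : (K + 1) * (2 * (K + 2) - 1) ≤ (K + 1) * (2 * δ - 1) :=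
        mul_le_mul_of_nonneg_left (by linarith) (by linarith)
      have h5 : (n1 : ℝ) * D ≤ (M + 1) * D := mul_le_mul_of_nonneg_right hn2R hD0.le
      have h6 : (M + 1) * D ≤ (K + 1) * D := mul_le_mul_of_nonneg_right (by linarith) hD0.le
      rw [hD] at h5 h6
      nlinarith
    rw [hS k hkm]
    obtain ⟨Y, hY⟩ : ∃ Y : ℤ, Y = ⌊x⌋ := ⟨_, rfl⟩
    obtain ⟨U, hU⟩ : ∃ U : ℤ, U = ⌊(x - (K + 1)) / D⌋ := ⟨_, rfl⟩
    have hYR : (0 : ℤ) ≤ Y := by rw [hY]; exact Int.floor_nonneg.2 (by linarith)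
    have hUR : (-1 : ℤ) ≤ U := by
      rw [hU]
      apply Int.le_floor.2
      rw [le_div_iff₀ hD0, hD]
      push_cast
      linarith
    have hYU : B ⊆ Finset.Icc (-U) Y := by
      intro c hc
      rw [Finset.mem_Icc]
      rcases hmem c hc with ⟨h1, h2⟩ | ⟨h1, h2⟩
      · refine ⟨by omega, ?_⟩
        rw [hY]; exact Int.le_floor.2 h2
      · refine ⟨?_, by omega⟩
        have : -c ≤ U := by
          rw [hU]
          apply Int.le_floor.2
          rw [le_div_iff₀ hD0]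
          push_cast
          exact h2
        omega
    have hcB : (B.card : ℤ) ≤ Y + U + 1 := by
      have h1 := card_le_card hYU
      rw [Int.card_Icc] at h1
      omega
    have hsum : ((Y + U + 1 : ℤ) : ℝ) < (M + 2) * ((m : ℝ) - k) + n1 + 1 := by
      have h1 := Int.floor_le x
      have h2 := Int.floor_le ((x - (K + 1)) / D)
      rw [← hY] at h1
      rw [← hU] at h2
      rw [le_div_iff₀ hD0] at h2
      push_cast
      have h3 : ((Y : ℝ) + U + 1) * D < ((M + 2) * ((m : ℝ) - k) + n1 + 1) * D := by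
        have h4 : (Y : ℝ) * D ≤ x * D := mul_le_mul_of_nonneg_right h1 hD0.le
        have h6 : x * D + (x - (K + 1)) + D =
            2 * (K + 1) ^ 2 * ((m : ℝ) - k) + (K + 1) * (2 * δ - 1) + D := by
          rw [hx2, hD]; ring
        rw [hid] at h6
        have h7 : ((M + 2) * ((m : ℝ) - k) + n1 + 1) * D =
            (M + 2) * D * ((m : ℝ) - k) + n1 * D + D := by ring
        linarith
      exact lt_of_mul_lt_mul_right h3 hD0.le
    have hsumZ : Y + U + 1 < (M + 2) * ((m : ℤ) - k) + n1 + 1 := by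
      have : ((Y + U + 1 : ℤ) : ℝ) < (((M + 2) * ((m : ℤ) - k) + n1 + 1 : ℤ) : ℝ) := by
        push_cast at hsum ⊢
        exact hsum
      exact Int.cast_lt.1 this
    have h8 : (((M + 2) * (m - k) + n1 : ℕ) : ℤ) = (M + 2) * ((m : ℤ) - k) + n1 := by
      push_cast [Nat.cast_sub hkm]
      ring
    have h9 : ((B.card : ℕ) : ℤ) ≤ (((M + 2) * (m - k) + n1 : ℕ) : ℤ) := by
      rw [h8]
      linarith
    exact_mod_cast h9
  · right
    refine Sur_rows_w (p := 1) (q := 2) (by norm_num) hK0 fun k hk => ?_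
    obtain ⟨i, hi⟩ := hk
    have hkm : k ≤ m := by rcases hw i with h | h <;> omega
    have h8 : ((∑ i, (w i - k) : ℕ) : ℤ) = (M + 2) * ((m : ℤ) - k) + n1 := by
      rw [hS k hkm]
      push_cast [Nat.cast_sub hkm]
      ring
    rw [h8]
    have e1 : ((2 : ℕ) : ℝ) * (K + ((1 : ℕ) : ℝ)) - 1 = D := by rw [hD]; push_cast; ring
    rw [e1]
    obtain ⟨x, hxk⟩ : ∃ x : ℝ, x = A - (K + 1) * k := ⟨_, rfl⟩
    have e2 : A - (K + ((1 : ℕ) : ℝ)) * k = x := by rw [hxk]; push_cast; ring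
    rw [e2]
    have e3 : x - (K + ((1 : ℕ) : ℝ)) = x - (K + 1) := by push_cast; ring
    rw [e3]
    have hx2 : x = (K + 1) * ((m : ℝ) - k) + δ := by rw [hxk]; exact hx k
    have h1 := Int.lt_floor_add_one x
    have h2 := Int.lt_floor_add_one ((x - (K + 1)) / D)
    rw [div_lt_iff₀ hD0] at h2
    have hsum : (M + 2) * ((m : ℝ) - k) + n1 < ((⌊x⌋ + ⌊(x - (K + 1)) / D⌋ + 1 + 1 : ℤ) : ℝ) := by
      push_cast
      have h3 : ((M + 2) * ((m : ℝ) - k) + n1) * D < ((⌊x⌋ : ℝ) + ⌊(x - (K + 1)) / D⌋ + 1 + 1) * D := by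
        have h4 : x * D < ((⌊x⌋ : ℝ) + 1) * D := mul_lt_mul_of_pos_right h1 hD0
        have h6 : x * D + (x - (K + 1)) =
            2 * (K + 1) ^ 2 * ((m : ℝ) - k) + (K + 1) * (2 * δ - 1) := by
          rw [hx2, hD]; ring
        rw [hid] at h6
        have h7 : ((M + 2) * ((m : ℝ) - k) + n1) * D = (M + 2) * D * ((m : ℝ) - k) + n1 * D := by ring
        linarith
      exact lt_of_mul_lt_mul_right h3 hD0.le
    have hsumZ : (M + 2) * ((m : ℤ) - k) + n1 < ⌊x⌋ + ⌊(x - (K + 1)) / D⌋ + 1 + 1 := by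
      have : (((M + 2) * ((m : ℤ) - k) + n1 : ℤ) : ℝ) <
          ((⌊x⌋ + ⌊(x - (K + 1)) / D⌋ + 1 + 1 : ℤ) : ℝ) := by
        push_cast at hsum ⊢
        exact hsum
      exact Int.cast_lt.1 this
    omega

/-- the same without a distinguished point -/
theorem dichB {M m : ℕ} {K A : ℝ} (h : Slp M 2 K) {w : Fin (M + 2) → ℕ}
    (hw : ∀ i, w i = m ∨ w i = m + 1) : Emp w (Fl 2 K A) ∨ Sur w (Fl 2 K A) := by
  by_cases h0 : ∃ i0, w i0 = m
  · obtain ⟨i0, h0⟩ := h0
    exact dichB0 h hw h0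
  · push Not at h0
    have h1 : ∀ i, w i = m + 1 := fun i => by
      rcases hw i with h2 | h2
      · exact absurd h2 (h0 i)
      · exact h2
    exact dichB0 (m := m + 1) h (fun i => Or.inl (h1 i)) (h1 ⟨0, by omega⟩)

end Pool.Agent.L7h43.NU
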