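import Pool.Agent.L7h43.NU.Reg
import Pool.Agent.L7h14.NQ.DzN

/-! The near-uniform theorems without hypotheses. -/

set_option autoImplicit false

namespace Pool.Agent.L7h43.NU

open Finset Pool.Agent.TH176.Nag Pool.Agent.TH603.Sur Pool.Agent.TH603.Cut Pool.Agent.H932R3

theorem s_DZN : S_DZN := fun _ _ _ _ h hA _ hw => Pool.Agent.L7h14.NQ.s_DZN h hA hw

/-- **near-uniform on `20 * 4 ^ k` or 24 points, constant on 29, at most one elsewhere: all degrees** -/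
theorem expReg {n N m : ℕ} (hm : 1 ≤ m) {w : Fin n → ℕ} {S : Finset (Fin n)}
    (hS : S.card = N) (hw : ∀ i ∈ S, w i = m ∨ w i = m + 1) (h1 : ∀ i, i ∉ S → w i ≤ 1)
    (hc : (∃ k, N = 20 * 4 ^ k) ∨ (N = 24 ∧ 2 ∣ (S.filter fun i => w i = m + 1).card) ∨
      (N = 29 ∧ ∀ i ∈ S, w i = m)) :
    ∃ F : MvPolynomial (Fin n × Fin 2) ℚ, F ≠ 0 ∧ ∀ {L : Type} [Field L] [CharZero L]
      (P : Fin n → Fin 2 → L), MvPolynomial.aeval (fun ij : Fin n × Fin 2 => P ij.1 ij.2) F ≠ 0 →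
      ∀ d, ExpDim L w P d :=
  exp_reg s_DZN hm hS hw h1 hc

/-- **near-uniform on 18, 27 or 29 points, at most one elsewhere: some residue classes of degrees** -/
theorem expRes {n N m : ℕ} {w : Fin n → ℕ} {S : Finset (Fin n)}
    (hS : S.card = N) (hw : ∀ i ∈ S, w i = m ∨ w i = m + 1) (h1 : ∀ i, i ∉ S → w i ≤ 1) :
    ∃ F : MvPolynomial (Fin n × Fin 2) ℚ, F ≠ 0 ∧ ∀ {L : Type} [Field L] [CharZero L]
      (P : Fin n → Fin 2 → L), MvPolynomial.aeval (fun ij : Fin n × Fin 2 => P ij.1 ij.2) F ≠ 0 →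
      ∀ d, ((N = 18 ∧ 2 ≤ d % 4) ∨ (N = 27 ∧ 3 ≤ d % 5) ∨ (N = 29 ∧ d % 5 ≠ 1)) → ExpDim L w P d :=
  Pool.Agent.TH864.SX.expDim_of_or' fun _ hd => dich_res s_DZN hS hw h1 hd

end Pool.Agent.L7h43.NU
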