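import Pool.Agent.TH641.UM.Ones
import Pool.Agent.TH603.EL.Fin
import Pool.Agent.L7h52.NQ.Asm

/-! Any number of simple points more. -/

set_option autoImplicit false

namespace Pool.Agent.L7h43.NU

open Finset Pool.Agent.TH176.Nag Pool.Agent.TH603.Sur Pool.Agent.TH603.Cut
open Pool.Agent.TH641.UM (TF coe_TF card_TF Emp_ones)

/-- degree zero -/
theorem dich_deg0 {n : ℕ} (hn : 9 ≤ n) (w : Fin n → ℕ) : Emp w (TZ 0) ∨ Sur w (TZ 0) := by
  by_cases h0 : ∀ i, w i = 0
  · right
    refine ⟨∅, by simp, ?_, Emp_none (by simpa using h0)⟩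
    simp [Pool.Agent.TH603.Sur.cond, h0]
  · left
    push Not at h0
    obtain ⟨i0, hi0⟩ := h0
    refine Pool.Agent.TH603.EL.Emp_plane (by simpa using hn) ?_
    have h1 : ((w i0 : ℕ) : ℝ) ≤ ∑ i, (w i : ℝ) :=
      Finset.single_le_sum (f := fun i => (w i : ℝ)) (fun i _ => Nat.cast_nonneg _) (Finset.mem_univ i0)
    have h2 : (0 : ℝ) < w i0 := by
      have : 0 < w i0 := Nat.pos_of_ne_zero hi0
      exact_mod_cast this
    push_cast
    rw [mul_zero]
    linarith

/-- simple points more -/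
theorem dich_ones {ι : Type} [Fintype ι] {w : ι → ℕ} {d : ℕ} (p : ℕ) (h : Emp w (TZ d) ∨ Sur w (TZ d)) :
    Emp (Sum.elim w (fun _ : Fin p => 1)) (TZ d) ∨ Sur (Sum.elim w (fun _ : Fin p => 1)) (TZ d) := by
  classical
  rcases h with h | h
  · exact Or.inl (Emp_emb (g := Sum.inl) Sum.inl_injective (fun i => le_rfl) h)
  rcases le_or_gt ((d + 2).choose 2) (cond w + p) with hp | hp
  · exact Or.inl (Emp_ones h hp)
  right
  obtain ⟨T, hT, hcard, hE⟩ := h
  have hTS : T ⊆ TF d := by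
    rw [← coe_TF] at hT
    exact_mod_cast hT
  have h2 : p ≤ (TF d \ T).card := by
    rw [card_sdiff_of_subset hTS, card_TF, hcard]
    omega
  obtain ⟨U, hU, hUc⟩ := exists_subset_card_eq h2
  have h3 := Emp_union hE U
  rw [hUc] at h3
  have hdis : Disjoint T U := by
    rw [Finset.disjoint_left]
    intro a ha hb
    exact (mem_sdiff.1 (hU hb)).2 ha
  refine ⟨T ∪ U, ?_, ?_, h3⟩
  · rw [← coe_TF]
    have : T ∪ U ⊆ TF d := union_subset hTS (hU.trans sdiff_subset)
    exact_mod_cast this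
  · rw [card_union_of_disjoint hdis, hcard, hUc]
    unfold Pool.Agent.TH603.Sur.cond
    rw [Fintype.sum_sum_type]
    simp

/-- **transport**: the weights on a set `S` of points and at most one elsewhere -/
theorem dich_set {n N : ℕ} {w : Fin n → ℕ} {S : Finset (Fin n)} (hS : S.card = N)
    (h1 : ∀ i, i ∉ S → w i ≤ 1) {d : ℕ}
    (h : ∀ e : Fin N ≃ S, Emp (fun j => w (e j)) (TZ d) ∨ Sur (fun j => w (e j)) (TZ d)) :
    Emp w (TZ d) ∨ Sur w (TZ d) := by
  classical
  obtain ⟨e⟩ : Nonempty (Fin N ≃ S) := ⟨(Fintype.equivFinOfCardEq (by simpa using hS)).symm⟩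
  obtain ⟨T, hT⟩ : ∃ T : Finset (Fin n), T = univ.filter fun i => i ∉ S ∧ w i = 1 := ⟨_, rfl⟩
  have hTm : ∀ i, i ∈ T ↔ i ∉ S ∧ w i = 1 := fun i => by rw [hT]; simp
  obtain ⟨f⟩ : Nonempty (Fin T.card ≃ T) := ⟨(Fintype.equivFinOfCardEq (by simp)).symm⟩
  obtain ⟨g, hg⟩ : ∃ g : Fin N ⊕ Fin T.card → Fin n,
      g = Sum.elim (fun j => (e j : Fin n)) (fun j => (f j : Fin n)) := ⟨_, rfl⟩
  have hgi : Function.Injective g := by
    rw [hg]
    rintro (a | a) (b | b) hab
    · simp only [Sum.elim_inl] at hab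
      rw [e.injective (Subtype.ext hab)]
    · exfalso
      simp only [Sum.elim_inl, Sum.elim_inr] at hab
      have h2 := (hTm _).1 (f b).2
      rw [← hab] at h2
      exact h2.1 (e a).2
    · exfalso
      simp only [Sum.elim_inl, Sum.elim_inr] at hab
      have h2 := (hTm _).1 (f a).2
      rw [hab] at h2
      exact h2.1 (e b).2
    · simp only [Sum.elim_inr] at hab
      rw [f.injective (Subtype.ext hab)]
  have hgw : ∀ a, w (g a) = Sum.elim (fun j => w (e j)) (fun _ : Fin T.card => 1) a := by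
    rw [hg]
    rintro (a | a)
    · rfl
    · simp only [Sum.elim_inr]
      exact ((hTm _).1 (f a).2).2
  have hrest : ∀ i, i ∉ Set.range g → w i = 0 := by
    intro i hi
    have hiS : i ∉ S := by
      intro hc
      apply hi
      refine ⟨Sum.inl (e.symm ⟨i, hc⟩), ?_⟩
      rw [hg]
      simp
    have hiT : i ∉ T := by
      intro hc
      apply hi
      refine ⟨Sum.inr (f.symm ⟨i, hc⟩), ?_⟩
      rw [hg]
      simp
    have h2 := h1 i hiS
    have h3 : w i ≠ 1 := fun hc => hiT ((hTm i).2 ⟨hiS, hc⟩)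
    omega
  have hcond : cond w = cond (Sum.elim (fun j => w (e j)) (fun _ : Fin T.card => 1)) := by
    unfold Pool.Agent.TH603.Sur.cond
    have h4 : ∑ i, (w i + 1).choose 2 = ∑ i ∈ univ.image g, (w i + 1).choose 2 := by
      symm
      apply sum_subset (subset_univ _)
      intro i _ hi
      have : w i = 0 := hrest i fun ⟨a, ha⟩ => hi (by rw [← ha]; exact mem_image_of_mem g (mem_univ a))
      rw [this]
      rfl
    rw [h4, sum_image (fun a _ b _ hab => hgi hab)]
    exact sum_congr rfl fun a _ => by rw [hgw]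
  rcases dich_ones T.card (h e) with h2 | ⟨R, r1, r2, r3⟩
  · exact Or.inl (Emp_emb (g := g) hgi (fun a => (hgw a).ge) h2)
  · exact Or.inr ⟨R, r1, by rw [r2, hcond], Emp_emb (g := g) hgi (fun a => (hgw a).ge) r3⟩

end Pool.Agent.L7h43.NU
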