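import Pool.Agent.L7h43.NU.Uni
import Pool.Agent.L7h43.NU.Ones
import Pool.Agent.L7h14.QX.Fin
import Pool.Agent.L7h14.NQ.Twenty
import Pool.Agent.TH759.EV.Pow

/-! Near-uniform multiplicities at 20 points, all degrees, and at 29 points, from the near-uniform DZ. -/

set_option autoImplicit false

namespace Pool.Agent.L7h43.NU

open Finset Pool.Agent.TH176.Nag Pool.Agent.TH603.Sur Pool.Agent.TH603.Cut
open Pool.Agent.TH864.SX (Slp)
open Pool.Agent.TH469.SX
open Pool.Agent.TH759.EV (NU)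

/-- near-uniform DZ (helper14) -/
def S_DZN : Prop := ∀ (M m : ℕ) (K A : ℝ), Slp M 1 K → 0 ≤ A → ∀ w : Fin (M + 4) → ℕ,
  (∀ i, w i = m ∨ w i = m + 1) → Emp w (Fl 1 K A ∪ {((-1, 0) : ℤ × ℤ)}) ∨ Sur w (Fl 1 K A)

/-- **20 points, near-uniform, all degrees** -/
theorem dich20N (hN : S_DZN) {m d : ℕ} {w : Fin 20 → ℕ} (hw : ∀ i, w i = m ∨ w i = m + 1) :
    Emp w (TZ d) ∨ Sur w (TZ d) := by
  by_cases h4 : ¬ 4 ∣ d
  · exact dich20n hw h4
  push Not at h4
  rcases Nat.eq_zero_or_pos d with rfl | hd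
  · exact dich_deg0 (by norm_num) w
  have P := Pool.Agent.L7h52.NQ.parts
  have h := Pool.Agent.L7h52.NQ.slp20'
  have h18 := Pool.Agent.L7h52.NQ.lt20'
  obtain ⟨K, hK⟩ : ∃ K : ℝ, K = (((8 : ℕ) : ℝ) + (4 : ℕ) * √((5 : ℕ) : ℝ)) := ⟨_, rfl⟩
  rw [← hK] at h h18
  have h16 : (16 : ℝ) < K := by have := h.hMK; push_cast at this; exact this
  rcases hN 16 m K (Pool.Agent.L7h52.NQ.AA K d) h (Pool.Agent.L7h52.NQ.AA_nonneg h.K0 hd) w hw with hE | hS
  · left
    have h1 := Pool.Agent.L7h65.NQ.s_FLZ 1 K d (Fin 20) w h hE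
    have h2 := Pool.Agent.L7h65.NQ.s_ONEZ K d h.irr h16 h18 h4 (Fin 20) w h1
    exact P.emp _ _ d ((24 - K) / 16) (by linarith) (by linarith) h2
  · right
    have h0 := P.fls 16 1 K d (Fin 20) w h hS
    have h2 := (P.one K d h.irr h16 h18).2 (Fin 20) w h0
    have hirr : Irrational ((24 - K) / 16) := by
      have := (h.irr.natCast_sub 24).div_natCast (m := 16) (by norm_num)
      simpa using this
    exact P.sur _ _ d ((24 - K) / 16) (by linarith) (by linarith) hirr h2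

/-- **20 * 4 ^ k points, near-uniform** -/
theorem NU20 (hN : S_DZN) (k : ℕ) : NU (20 * 4 ^ k) :=
  Pool.Agent.TH759.EV.NU_pow (Pool.Agent.TH759.EV.NU_of_dich fun _ _ hw _ => dich20N hN hw) k

/-- **29 points, near-uniform**, all degrees but those `1` modulo `5` -/
theorem dich29N (hN : S_DZN) {m d : ℕ} {w : Fin 29 → ℕ} (hw : ∀ i, w i = m ∨ w i = m + 1)
    (h5 : d % 5 ≠ 1) : Emp w (TZ d) ∨ Sur w (TZ d) := by
  by_cases h2 : 2 ≤ d % 5
  · exact dich29n hw h2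
  rcases Nat.eq_zero_or_pos d with rfl | hd
  · exact dich_deg0 (by norm_num) w
  have P := Pool.Agent.L7h43.QU.parts
  have h := Pool.Agent.L7h43.QU.slp29
  have h26 := Pool.Agent.L7h43.QU.lt29
  obtain ⟨K, hK⟩ : ∃ K : ℝ, K = (((25 : ℕ) : ℝ) + (5 : ℕ) * √((29 : ℕ) : ℝ)) / 2 := ⟨_, rfl⟩
  rw [← hK] at h h26
  have h25 : (25 : ℝ) < K := by have := h.hMK; push_cast at this; exact this
  have hd5 : 5 ∣ d := by omega
  rcases hN 25 m K (Pool.Agent.L7h43.QU.AA K d) h (Pool.Agent.L7h43.QU.AA_nonneg h.K0 hd) w hw with hE | hS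
  · left
    have h1 := Pool.Agent.L7h10.QX.s_FLZ5 25 1 K d (Fin 29) w h (by omega) hE
    have h3 := (Pool.Agent.L7h10.QX.s_ONEZ5 K d h.irr h25 h26 hd5).1 (Fin 29) w h1
    exact P.emp _ _ d ((30 - K) / 25) (by linarith) (by linarith) h3
  · right
    have h0 := P.fls 25 1 K d (Fin 29) w h hS
    have h2 := (P.one K d h.irr h25 h26).2.2 (Fin 29) w h0
    have hirr : Irrational ((35 - K) / 25) := by
      have := (h.irr.natCast_sub 35).div_natCast (m := 25) (by norm_num)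
      simpa using this
    exact P.sur _ _ d ((35 - K) / 25) (by linarith) (by linarith) hirr h2

end Pool.Agent.L7h43.NU
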