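import Pool.Agent.L7h43.QU.Fin
import Pool.Agent.L7h52.NQ.Fin
import Pool.Agent.TH469.SX.Near

/-! Near-uniform multiplicities at 20, 24 and 29 general points. -/

set_option autoImplicit false

namespace Pool.Agent.L7h43.NU

open Finset Pool.Agent.TH176.Nag Pool.Agent.TH603.Sur Pool.Agent.TH603.Cut
open Pool.Agent.TH864.SX (Slp)
open Pool.Agent.TH469.SX

/-- the dichotomy of the block, multiplicities `m` and `m + 1` -/
theorem dichA {M m : ℕ} {K A : ℝ} (h : Slp M 1 K) {w : Fin (M + 4) → ℕ}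
    (hw : ∀ i, w i = m ∨ w i = m + 1) (hA0 : 0 ≤ A) :
    Emp w (Fl 1 K A ∪ {((0, 0) : ℤ × ℤ)}) ∨ Sur w (Fl 1 K A) := by
  have hK2 : K ^ 2 = M * K + M := by
    have := h.eq
    push_cast at this
    linarith
  by_cases h0 : ∃ i0, w i0 = m
  · obtain ⟨i0, h0⟩ := h0
    exact dichN h.hM h.K0 hK2 hw h0 hA0
  · push Not at h0
    have h1 : w = fun _ => m + 1 := by
      funext i
      rcases hw i with h2 | h2
      · exact absurd h2 (h0 i)
      · exact h2
    rw [h1]
    exact Pool.Agent.L7h52.NQ.s_DICH M K A (m + 1) h hA0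

/-! ### 20 points -/

/-- **20 points, near-uniform**, degrees not divisible by four -/
theorem dich20n {m d : ℕ} {w : Fin 20 → ℕ} (hw : ∀ i, w i = m ∨ w i = m + 1) (h4 : ¬ 4 ∣ d) :
    Emp w (TZ d) ∨ Sur w (TZ d) := by
  have hd : 1 ≤ d := by omega
  have P := Pool.Agent.L7h52.NQ.parts
  have h := Pool.Agent.L7h52.NQ.slp20'
  have h18 := Pool.Agent.L7h52.NQ.lt20'
  obtain ⟨K, hK⟩ : ∃ K : ℝ, K = (((8 : ℕ) : ℝ) + (4 : ℕ) * √((5 : ℕ) : ℝ)) := ⟨_, rfl⟩
  rw [← hK] at h h18
  have h16 : (16 : ℝ) < K := by have := h.hMK; push_cast at this; exact this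
  rcases dichA (A := Pool.Agent.L7h52.NQ.AA K d) h hw (Pool.Agent.L7h52.NQ.AA_nonneg h.K0 hd) with hE | hS
  · left
    have h1 := (P.fle 16 1 K d (Fin 20) w h).2 1 hE
    have h2 := (P.one K d h.irr h16 h18).1 h4 (Fin 20) w h1
    exact P.emp _ _ d ((24 - K) / 16) (by linarith) (by linarith) h2
  · right
    have h0 := P.fls 16 1 K d (Fin 20) w h hS
    have h2 := (P.one K d h.irr h16 h18).2 (Fin 20) w h0
    have hirr : Irrational ((24 - K) / 16) := by
      have := (h.irr.natCast_sub 24).div_natCast (m := 16) (by norm_num)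
      simpa using this
    exact P.sur _ _ d ((24 - K) / 16) (by linarith) (by linarith) hirr h2

/-! ### 29 points -/

/-- **29 points, near-uniform**, degrees `2, 3, 4` modulo `5` -/
theorem dich29n {m d : ℕ} {w : Fin 29 → ℕ} (hw : ∀ i, w i = m ∨ w i = m + 1) (h5 : 2 ≤ d % 5) :
    Emp w (TZ d) ∨ Sur w (TZ d) := by
  have hd : 1 ≤ d := by omega
  have P := Pool.Agent.L7h43.QU.parts
  have h := Pool.Agent.L7h43.QU.slp29
  have h26 := Pool.Agent.L7h43.QU.lt29
  obtain ⟨K, hK⟩ : ∃ K : ℝ, K = (((25 : ℕ) : ℝ) + (5 : ℕ) * √((29 : ℕ) : ℝ)) / 2 := ⟨_, rfl⟩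
  rw [← hK] at h h26
  have h25 : (25 : ℝ) < K := by have := h.hMK; push_cast at this; exact this
  rcases dichA (A := Pool.Agent.L7h43.QU.AA K d) h hw (Pool.Agent.L7h43.QU.AA_nonneg h.K0 hd) with hE | hS
  · left
    by_cases h2 : d % 5 = 2
    · have h1 := (P.fle 25 1 K d (Fin 29) w h (by omega)).2 hE
      have h3 := (P.one K d h.irr h25 h26).2.1 h2 (Fin 29) w h1
      exact P.emp _ _ d ((35 - K) / 25) (by linarith) (by linarith) h3
    · have h1 := (P.fle 25 1 K d (Fin 29) w h (by omega)).1 (hE.mono Set.subset_union_left)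
      have h3 := (P.one K d h.irr h25 h26).1 (by omega) (Fin 29) w h1
      exact P.emp _ _ d ((35 - K) / 25) (by linarith) (by linarith) h3
  · right
    have h0 := P.fls 25 1 K d (Fin 29) w h hS
    have h2 := (P.one K d h.irr h25 h26).2.2 (Fin 29) w h0
    have hirr : Irrational ((35 - K) / 25) := by
      have := (h.irr.natCast_sub 35).div_natCast (m := 25) (by norm_num)
      simpa using this
    exact P.sur _ _ d ((35 - K) / 25) (by linarith) (by linarith) hirr h2

/-! ### 24 points -/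

/-- **24 points, near-uniform**, an even number of points of multiplicity `m + 1` -/
theorem dich24n {v : Fin 24 → ℕ} {m : ℕ} (hv : ∀ i, v i = m ∨ v i = m + 1)
    (h2 : 2 ∣ (univ.filter fun i => v i = m + 1).card) (d : ℕ) : Emp v (TZ d) ∨ Sur v (TZ d) := by
  obtain ⟨b, hb⟩ := h2
  have hb12 : b ≤ 12 := by
    have h1 := card_filter_le (univ : Finset (Fin 24)) fun i => v i = m + 1
    rw [hb, card_univ, Fintype.card_fin] at h1
    omega
  -- the weights of a sector
  obtain ⟨w, hw⟩ : ∃ w : Fin 12 → ℕ, w = fun i : Fin 12 => if (i : ℕ) < b then m + 1 else m := ⟨_, rfl⟩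
  have hw' : ∀ i, w i = m ∨ w i = m + 1 := by
    intro i
    rw [hw]
    by_cases h : (i : ℕ) < b
    · right; simp [h]
    · left; simp [h]
  have hwc : (univ.filter fun i => w i = m + 1).card = b := by
    have e : (univ.filter fun i : Fin 12 => w i = m + 1) =
        univ.filter fun i : Fin 12 => (i : ℕ) < b := by
      ext i
      rw [mem_filter, mem_filter, hw]
      by_cases h : (i : ℕ) < b
      · simp [h]
      · simp [h]
    rw [e]
    interval_cases b <;> decide
  obtain ⟨f, hf⟩ : ∃ f : Fin 12 ⊕ Fin 12 → ℕ, f = Sum.elim w w := ⟨_, rfl⟩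
  have hf' : ∀ i, f i = m ∨ f i = m + 1 := by
    rw [hf]
    rintro (i | i)
    · exact hw' i
    · exact hw' i
  have c1 : Fintype.card {a // f a = m + 1} = 2 * b := by
    rw [Fintype.card_subtype, ← hwc, hf]
    have e : (univ.filter fun a : Fin 12 ⊕ Fin 12 => Sum.elim w w a = m + 1) =
        (univ.filter fun i => w i = m + 1).disjSum (univ.filter fun i => w i = m + 1) := by
      ext a
      rcases a with a | a <;> simp
    rw [e, card_disjSum]
    ring
  have c2 : Fintype.card {a // v a = m + 1} = 2 * b := by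
    rw [Fintype.card_subtype, hb]
  have c3 : ∀ (α : Type) [Fintype α] [DecidableEq α] (g : α → ℕ), (∀ i, g i = m ∨ g i = m + 1) →
      Fintype.card {a // g a = m} + Fintype.card {a // g a = m + 1} = Fintype.card α := by
    intro α _ _ g hg
    rw [Fintype.card_subtype, Fintype.card_subtype, ← card_union_of_disjoint, ← card_univ]
    · congr 1
      ext i
      simp [hg i]
    · rw [disjoint_filter]
      intro i _ h1 h2
      omega
  have h24 : Fintype.card (Fin 12 ⊕ Fin 12) = 24 := by simp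
  have d1 := c3 _ f hf'
  have d2 := c3 _ v hv
  rw [h24, c1] at d1
  rw [Fintype.card_fin, c2] at d2
  have hfib : ∀ c : ℕ, Nonempty ({a // f a = c} ≃ {a // v a = c}) := by
    intro c
    by_cases h1 : c = m + 1
    · subst h1
      exact ⟨Fintype.equivOfCardEq (by rw [c1, c2])⟩
    by_cases h2 : c = m
    · subst h2
      exact ⟨Fintype.equivOfCardEq (by omega)⟩
    · have e1 : IsEmpty {a // f a = c} := ⟨fun ⟨a, ha⟩ => by rcases hf' a with h | h <;> omega⟩
      have e2 : IsEmpty {a // v a = c} := ⟨fun ⟨a, ha⟩ => by rcases hv a with h | h <;> omega⟩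
      exact ⟨Equiv.equivOfIsEmpty _ _⟩
  obtain ⟨e, he⟩ : ∃ e : Fin 12 ⊕ Fin 12 ≃ Fin 24, ∀ a, v (e a) = f a :=
    ⟨Equiv.ofFiberEquiv fun c => (hfib c).some, fun a => Equiv.ofFiberEquiv_map _ a⟩
  rcases Nat.eq_zero_or_pos d with rfl | hd
  · -- degree zero
    by_cases h0 : ∀ i, v i = 0
    · right
      refine ⟨∅, by simp, ?_, Emp_none (by simpa using h0)⟩
      simp [Pool.Agent.TH603.Sur.cond, h0]
    · left
      push Not at h0
      obtain ⟨i0, hi0⟩ := h0
      refine Pool.Agent.TH603.EL.Emp_plane (by simp) ?_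
      have h1 : ((v i0 : ℕ) : ℝ) ≤ ∑ i, (v i : ℝ) :=
        Finset.single_le_sum (f := fun i => (v i : ℝ)) (fun i _ => Nat.cast_nonneg _) (Finset.mem_univ i0)
      have h2 : (0 : ℝ) < v i0 := by
        have : 0 < v i0 := Nat.pos_of_ne_zero hi0
        exact_mod_cast this
      push_cast
      rw [mul_zero]
      linarith
  have P := Pool.Agent.L7h52.NQ.parts
  have h := Pool.Agent.L7h52.NQ.slp24
  have h9 := Pool.Agent.L7h52.NQ.lt24
  obtain ⟨K, hK⟩ : ∃ K : ℝ, K = (((4 : ℕ) : ℝ) + (2 : ℕ) * √((6 : ℕ) : ℝ)) := ⟨_, rfl⟩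
  rw [← hK] at h h9
  have h8 : (8 : ℝ) < K := by have := h.hMK; push_cast at this; exact this
  rcases dichA (A := Pool.Agent.L7h52.NQ.AA K d) h hw' (Pool.Agent.L7h52.NQ.AA_nonneg h.K0 hd) with hE | hS
  · left
    have g0 := (P.fle 8 1 K d (Fin 12) w h).2 0 hE
    have g1 := (P.fle 8 1 K d (Fin 12) w h).2 1 hE
    have g2 := P.sece K d (Fin 12) w h.irr h8 h9 g0 g1
    have g3 := P.emp _ _ d (1 - K / 16) (by linarith) (by linarith) g2
    rw [← hf] at g3
    exact Emp_emb (g := e) e.injective (fun i => by rw [he]) g3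
  · right
    have g0 := P.fls 8 1 K d (Fin 12) w h hS
    have g2 := P.secs K d (Fin 12) w h.irr h8 h9 g0
    have hirr : Irrational (1 - K / 16) := by
      have := (h.irr.div_natCast (m := 16) (by norm_num)).natCast_sub 1
      simpa using this
    have g3 := P.sur _ _ d (1 - K / 16) (by linarith) (by linarith) hirr g2
    rw [← hf] at g3
    obtain ⟨T, t1, t2, t3⟩ := g3
    refine ⟨T, t1, ?_, Emp_emb (g := e) e.injective (fun i => by rw [he]) t3⟩
    rw [t2]
    unfold Pool.Agent.TH603.Sur.cond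
    rw [← e.sum_comp]
    exact sum_congr rfl fun i _ => by rw [he]

end Pool.Agent.L7h43.NU
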