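import Pool.Agent.L7h43.NU.Full

/-! Regular vectors: near-uniform on a set of points, at most one elsewhere. -/

set_option autoImplicit false

namespace Pool.Agent.L7h43.NU

open Finset Pool.Agent.TH176.Nag Pool.Agent.TH603.Sur Pool.Agent.TH603.Cut Pool.Agent.H932R3
open Pool.Agent.TH759.EV (NU)

/-- near-uniform exactness gives emptiness or independence -/
theorem dich_of_NU {N m : ℕ} (h : NU N) (hm : 1 ≤ m) {w : Fin N → ℕ}
    (hw : ∀ i, w i = m ∨ w i = m + 1) (d : ℕ) : Emp w (TZ d) ∨ Sur w (TZ d) := by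
  obtain ⟨h1, h2⟩ := Pool.Agent.TH759.EV.Ex_fam h hm (Fintype.card_fin _) hw d
  rcases le_total ((d + 2).choose 2) (cond w) with h3 | h3
  · exact Or.inl (h1 h3)
  · exact Or.inr (h2 h3)

theorem card_fil {n N m : ℕ} {w : Fin n → ℕ} {S : Finset (Fin n)} (e : Fin N ≃ S) :
    (univ.filter fun j : Fin N => w (e j) = m + 1).card = (S.filter fun i => w i = m + 1).card := by
  refine Finset.card_bij (fun j _ => (e j : Fin n)) ?_ ?_ ?_
  · intro j hj
    rw [mem_filter] at hj ⊢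
    exact ⟨(e j).2, hj.2⟩
  · intro a _ b _ hab
    exact e.injective (Subtype.ext hab)
  · intro i hi
    rw [mem_filter] at hi
    refine ⟨e.symm ⟨i, hi.1⟩, ?_, ?_⟩
    · rw [mem_filter]
      refine ⟨mem_univ _, ?_⟩
      rw [Equiv.apply_symm_apply]
      exact hi.2
    · rw [Equiv.apply_symm_apply]

/-- **emptiness or independence in all degrees** -/
theorem dich_reg (hN : S_DZN) {n N m : ℕ} (hm : 1 ≤ m) {w : Fin n → ℕ} {S : Finset (Fin n)}
    (hS : S.card = N) (hw : ∀ i ∈ S, w i = m ∨ w i = m + 1) (h1 : ∀ i, i ∉ S → w i ≤ 1)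
    (hc : (∃ k, N = 20 * 4 ^ k) ∨ (N = 24 ∧ 2 ∣ (S.filter fun i => w i = m + 1).card) ∨
      (N = 29 ∧ ∀ i ∈ S, w i = m)) (d : ℕ) : Emp w (TZ d) ∨ Sur w (TZ d) := by
  rcases hc with ⟨k, rfl⟩ | ⟨rfl, h2⟩ | ⟨rfl, h2⟩
  · exact dich_set hS h1 fun e => dich_of_NU (NU20 hN k) hm (fun j => hw _ (e j).2) d
  · exact dich_set hS h1 fun e => dich24n (m := m) (fun j => hw _ (e j).2)
      (by rw [card_fil e]; exact h2) d
  · refine dich_set hS h1 fun e => ?_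
    have h3 : (fun j => w (e j)) = fun _ : Fin 29 => m := by
      funext j
      exact h2 _ (e j).2
    rw [h3]
    exact Pool.Agent.L7h14.QX.dich29 m d

/-- **the expected dimension in all degrees** -/
theorem exp_reg (hN : S_DZN) {n N m : ℕ} (hm : 1 ≤ m) {w : Fin n → ℕ} {S : Finset (Fin n)}
    (hS : S.card = N) (hw : ∀ i ∈ S, w i = m ∨ w i = m + 1) (h1 : ∀ i, i ∉ S → w i ≤ 1)
    (hc : (∃ k, N = 20 * 4 ^ k) ∨ (N = 24 ∧ 2 ∣ (S.filter fun i => w i = m + 1).card) ∨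
      (N = 29 ∧ ∀ i ∈ S, w i = m)) :
    ∃ F : MvPolynomial (Fin n × Fin 2) ℚ, F ≠ 0 ∧ ∀ {L : Type} [Field L] [CharZero L]
      (P : Fin n → Fin 2 → L), MvPolynomial.aeval (fun ij : Fin n × Fin 2 => P ij.1 ij.2) F ≠ 0 →
      ∀ d, ExpDim L w P d := by
  obtain ⟨F, hF, hF'⟩ := Pool.Agent.TH864.SX.expDim_of_or' (w := w) (G := fun _ => True)
    fun d _ => dich_reg hN hm hS hw h1 hc d
  exact ⟨F, hF, fun P hP d => hF' P hP d trivial⟩

/-- **some residue classes of degrees** -/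
theorem dich_res (hN : S_DZN) {n N m : ℕ} {w : Fin n → ℕ} {S : Finset (Fin n)}
    (hS : S.card = N) (hw : ∀ i ∈ S, w i = m ∨ w i = m + 1) (h1 : ∀ i, i ∉ S → w i ≤ 1) {d : ℕ}
    (hc : (N = 18 ∧ 2 ≤ d % 4) ∨ (N = 27 ∧ 3 ≤ d % 5) ∨ (N = 29 ∧ d % 5 ≠ 1)) :
    Emp w (TZ d) ∨ Sur w (TZ d) := by
  rcases hc with ⟨rfl, h2⟩ | ⟨rfl, h2⟩ | ⟨rfl, h2⟩
  · exact dich_set hS h1 fun e => dich18n (m := m) (fun j => hw _ (e j).2) h2
  · exact dich_set hS h1 fun e => dich27n (m := m) (fun j => hw _ (e j).2) h2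
  · exact dich_set hS h1 fun e => dich29N hN (m := m) (fun j => hw _ (e j).2) h2

end Pool.Agent.L7h43.NU
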