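import Pool.Agent.L7h43.NU.Near
import Pool.Agent.L7h43.NU.DichB
import Pool.Agent.TH864.SX.Eleven

/-! Near-uniform multiplicities at 18, 20, 24, 27 and 29 general points: the expected dimension. -/

set_option autoImplicit false

namespace Pool.Agent.L7h43.NU

open Finset Pool.Agent.TH176.Nag Pool.Agent.TH603.Sur Pool.Agent.TH603.Cut
open Pool.Agent.TH864.SX (Slp)
open Pool.Agent.TH469.SX
open Pool.Agent.H932R3 (ExpDim)

/-- **18 points, near-uniform**, degrees `2, 3` modulo `4` -/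
theorem dich18n {m d : ℕ} {w : Fin 18 → ℕ} (hw : ∀ i, w i = m ∨ w i = m + 1) (h4 : 2 ≤ d % 4) :
    Emp w (TZ d) ∨ Sur w (TZ d) := by
  have P := Pool.Agent.L7h52.NQ.parts
  have h := Pool.Agent.L7h52.NQ.slp18
  have h18 := Pool.Agent.L7h52.NQ.lt18
  obtain ⟨K, hK⟩ : ∃ K : ℝ, K = (((8 : ℕ) : ℝ) + (6 : ℕ) * √((2 : ℕ) : ℝ)) := ⟨_, rfl⟩
  rw [← hK] at h h18
  have h16 : (16 : ℝ) < K := by have := h.hMK; push_cast at this; exact this
  rcases dichB (A := Pool.Agent.L7h52.NQ.AA K d) h hw with hE | hS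
  · left
    have h1 := (P.fle 16 2 K d (Fin 18) w h).1 hE
    have h2 := (P.one K d h.irr h16 h18).1 (by omega) (Fin 18) w (h1.mono ?_)
    · exact P.emp _ _ d ((24 - K) / 16) (by linarith) (by linarith) h2
    · rintro p (hp | ⟨-, g2, g3⟩)
      · exact hp
      · exfalso; omega
  · right
    have h0 := P.fls 16 2 K d (Fin 18) w h hS
    have h2 := (P.one K d h.irr h16 h18).2 (Fin 18) w h0
    have hirr : Irrational ((24 - K) / 16) := by
      have := (h.irr.natCast_sub 24).div_natCast (m := 16) (by norm_num)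
      simpa using this
    exact P.sur _ _ d ((24 - K) / 16) (by linarith) (by linarith) hirr h2

/-- **27 points, near-uniform**, degrees `3, 4` modulo `5` -/
theorem dich27n {m d : ℕ} {w : Fin 27 → ℕ} (hw : ∀ i, w i = m ∨ w i = m + 1) (h5 : 3 ≤ d % 5) :
    Emp w (TZ d) ∨ Sur w (TZ d) := by
  have P := Pool.Agent.L7h43.QU.parts
  have h := Pool.Agent.L7h43.QU.slp27
  have h26 := Pool.Agent.L7h43.QU.lt27
  obtain ⟨K, hK⟩ : ∃ K : ℝ, K = (((25 : ℕ) : ℝ) + (5 : ℕ) * √((27 : ℕ) : ℝ)) / 2 := ⟨_, rfl⟩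
  rw [← hK] at h h26
  have h25 : (25 : ℝ) < K := by have := h.hMK; push_cast at this; exact this
  rcases dichB (A := Pool.Agent.L7h43.QU.AA K d) h hw with hE | hS
  · left
    have h1 := (P.fle 25 2 K d (Fin 27) w h (by omega)).1 hE
    have h3 := (P.one K d h.irr h25 h26).1 (by omega) (Fin 27) w h1
    exact P.emp _ _ d ((35 - K) / 25) (by linarith) (by linarith) h3
  · right
    have h0 := P.fls 25 2 K d (Fin 27) w h hS
    have h2 := (P.one K d h.irr h25 h26).2.2 (Fin 27) w h0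
    have hirr : Irrational ((35 - K) / 25) := by
      have := (h.irr.natCast_sub 35).div_natCast (m := 25) (by norm_num)
      simpa using this
    exact P.sur _ _ d ((35 - K) / 25) (by linarith) (by linarith) hirr h2

end Pool.Agent.L7h43.NU
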